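import Mathlib

set_option autoImplicit false

open Set Filter Metric
open scoped Topology

namespace Pool.Agent.Results.MP_b8546e_an.Line

/-- The Hutchinson operator of `F`. -/
def H (F : Set (ℝ → ℝ)) (B : Set ℝ) : Set ℝ := ⋃ f ∈ F, f '' B

/-- Every nonempty compact `B ⊆ U` is attracted to `A` in the Hausdorff distance. -/
def Attracts (F : Set (ℝ → ℝ)) (A U : Set ℝ) : Prop :=
  ∀ B, IsCompact B → B.Nonempty → B ⊆ U →
    Tendsto (fun k => hausdorffEDist ((H F)^[k] B) A) atTop (𝓝 0)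

/-- `A` is an attractor of `F`. -/
def IsAttractor (F : Set (ℝ → ℝ)) (A : Set ℝ) : Prop :=
  IsCompact A ∧ A.Nonempty ∧ H F A = A ∧ ∃ U, IsOpen U ∧ A ⊆ U ∧ Attracts F A U

noncomputable def f (x : ℝ) : ℝ :=
  -(2 / 3) * (max (-150) (min 150 x) + 27) - max (-5) (min 5 (x + 27)) - 27

noncomputable def g (x : ℝ) : ℝ := -f (-x)

lemma f_mem (x : ℝ) : f x ∈ Icc (-150 : ℝ) 150 := by
  simp only [f, mem_Icc, max_def, min_def]
  split_ifs <;> constructor <;> linarith

lemma g_mem (x : ℝ) : g x ∈ Icc (-150 : ℝ) 150 :=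
  ⟨by linarith [(f_mem (-x)).2, show g x = -f (-x) from rfl],
    by linarith [(f_mem (-x)).1, show g x = -f (-x) from rfl]⟩

lemma f_lip (y z : ℝ) (h : y ≤ -57 ∨ 3 ≤ y) : |f z - f y| ≤ 20 / 21 * |z - y| := by
  have a1 : |max (-150) (min 150 z) - max (-150) (min 150 y)| ≤ |z - y| := by
    refine (abs_max_sub_max_le_max _ _ _ _).trans (max_le (by simp) ?_)
    exact (abs_min_sub_min_le_max _ _ _ _).trans (max_le (by simp) le_rfl)
  have a2 : |max (-5) (min 5 (z + 27)) - max (-5) (min 5 (y + 27))| ≤ 2 / 7 * |z - y| := by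
    have b1 := le_abs_self (z - y)
    have b2 := neg_abs_le (z - y)
    have b3 := abs_nonneg (z - y)
    rcases h with h | h
    · rw [max_eq_left (b := min 5 (y + 27)) ((min_le_right _ _).trans (by linarith)), abs_le]
      simp only [max_def, min_def]
      split_ifs <;> constructor <;> linarith
    · rw [min_eq_left (b := y + 27) (by linarith), max_eq_right (b := 5) (by norm_num), abs_le]
      simp only [max_def, min_def]
      split_ifs <;> constructor <;> linarith
  rw [abs_le] at a1 a2 ⊢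
  unfold f
  constructor <;> linarith [a1.1, a1.2, a2.1, a2.2]

lemma f_pre (t : ℝ) (h : -150 ≤ t ∧ t ≤ -52 ∨ -2 ≤ t ∧ t ≤ 60) :
    ∃ y ∈ Icc (-150 : ℝ) 150, f y = t ∧ ∀ z, |f z - f y| ≤ 20 / 21 * |z - y| := by
  rcases h with ⟨h1, h2⟩ | ⟨h1, h2⟩
  · have m : -3 / 2 * (t + 32) - 27 ∈ Icc (-150 : ℝ) 150 := ⟨by linarith, by linarith⟩
    refine ⟨_, m, ?_, fun z => f_lip _ z (Or.inr (by linarith))⟩
    rw [f, min_eq_right m.2, max_eq_right m.1, min_eq_left (by linarith),
      max_eq_right (by norm_num)]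
    ring
  · have m : -3 / 2 * (t + 22) - 27 ∈ Icc (-150 : ℝ) 150 := ⟨by linarith, by linarith⟩
    refine ⟨_, m, ?_, fun z => f_lip _ z (Or.inl (by linarith))⟩
    rw [f, min_eq_right m.2, max_eq_right m.1, min_eq_right (by linarith),
      max_eq_left (by linarith)]
    ring

lemma pre (t : ℝ) (h : t ∈ Icc (-150 : ℝ) 150) : ∃ φ ∈ ({f, g} : Set (ℝ → ℝ)),
    ∃ y ∈ Icc (-150 : ℝ) 150, φ y = t ∧ ∀ z, |φ z - φ y| ≤ 20 / 21 * |z - y| := by
  by_cases h1 : -150 ≤ t ∧ t ≤ -52 ∨ -2 ≤ t ∧ t ≤ 60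
  · exact ⟨f, by simp, f_pre t h1⟩
  · obtain ⟨y, hy, e, hl⟩ := f_pre (-t) (by
      obtain ⟨a, b⟩ := h
      push Not at h1
      rcases le_total t 2 with c | c
      · exact Or.inr ⟨by linarith, by linarith [h1.1 a]⟩
      · exact Or.inl ⟨by linarith, by linarith [h1.2 (by linarith)]⟩)
    refine ⟨g, by simp, -y, ⟨by linarith [hy.2], by linarith [hy.1]⟩, by simp [g, e], fun z => ?_⟩
    have := hl (-z)
    rw [g, g, neg_neg, abs_sub_comm, show -f y - -f (-z) = f (-z) - f y by ring,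
      show z - -y = -(-z - y) by ring, abs_neg]
    exact this

lemma H_sub (B : Set ℝ) : H {f, g} B ⊆ Icc (-150) 150 := by
  intro x hx
  simp only [H, mem_iUnion, mem_image, mem_insert_iff, mem_singleton_iff] at hx
  obtain ⟨φ, rfl | rfl, y, -, rfl⟩ := hx
  exacts [f_mem y, g_mem y]

lemma glob : Attracts {f, g} (Icc (-150) 150) univ := by
  rintro B - ⟨b, hb⟩ -
  have key : ∀ k : ℕ, ∀ t ∈ Icc (-150 : ℝ) 150, ∃ z ∈ (H {f, g})^[k] B,
      |z - t| ≤ (20 / 21) ^ k * (|b| + 150) := by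
    intro k
    induction k with
    | zero =>
      intro t ht
      refine ⟨b, hb, ?_⟩
      have := abs_sub b t
      have := abs_le.2 ht
      simp only [pow_zero, one_mul]
      linarith
    | succ k ih =>
      intro t ht
      obtain ⟨φ, hφ, y, hy, rfl, hl⟩ := pre t ht
      obtain ⟨z, hz, hz'⟩ := ih y hy
      refine ⟨φ z, ?_, ?_⟩
      · rw [Function.iterate_succ_apply']
        exact mem_biUnion hφ (mem_image_of_mem _ hz)
      · rw [pow_succ]
        linarith [hl z]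
  have t1 := ENNReal.tendsto_ofReal ((tendsto_pow_atTop_nhds_zero_of_lt_one
    (r := (20 / 21 : ℝ)) (by norm_num) (by norm_num)).mul_const (|b| + 150))
  rw [zero_mul, ENNReal.ofReal_zero] at t1
  refine tendsto_of_tendsto_of_tendsto_of_le_of_le' tendsto_const_nhds t1
    (Eventually.of_forall fun _ => zero_le) ?_
  filter_upwards [eventually_ge_atTop 1] with k hk
  obtain ⟨m, rfl⟩ : ∃ m, k = m + 1 := ⟨k - 1, by omega⟩
  refine hausdorffEDist_le_of_mem_edist (fun x hx => ⟨x, ?_, by simp⟩) fun t ht => ?_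
  · rw [Function.iterate_succ_apply'] at hx
    exact H_sub _ hx
  · obtain ⟨z, hz, hz'⟩ := key (m + 1) t ht
    exact ⟨z, hz, by rw [edist_dist, Real.dist_eq, abs_sub_comm]; exact ENNReal.ofReal_le_ofReal hz'⟩

lemma expand (φ : ℝ → ℝ) (p : ℝ) (h : ∀ x, |x - p| < 5 → φ x - p = -(5 / 3) * (x - p))
    (d : ℝ → ℝ → ℝ) (hd : ∀ s, IsOpen s ↔ ∀ x ∈ s, ∃ ε > 0, ∀ y, d x y < ε → y ∈ s)
    (hb : ∀ ε > 0, ∀ᶠ y in 𝓝 p, d p y < ε) : ¬ ∀ x y, d (φ x) (φ y) ≤ d x y := by
  intro hl
  have hp : φ p = p := by have := h p (by norm_num); linarith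
  obtain ⟨ε, hε, h1⟩ := (hd (ball p 5)).1 isOpen_ball p (mem_ball_self (by norm_num))
  obtain ⟨x, hx, hx'⟩ := (((hb ε hε).filter_mono nhdsWithin_le_nhds).and
    (self_mem_nhdsWithin (s := {p}ᶜ))).exists
  have key : ∀ n : ℕ, d p (φ^[n] x) < ε ∧ |φ^[n] x - p| = (5 / 3) ^ n * |x - p| := by
    intro n
    induction n with
    | zero => exact ⟨hx, by simp⟩
    | succ n ih =>
      rw [Function.iterate_succ_apply']
      refine ⟨lt_of_le_of_lt (by simpa only [hp] using hl p _) ih.1, ?_⟩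
      rw [h _ (h1 _ ih.1), abs_mul, ih.2, pow_succ, abs_neg, abs_of_pos (by norm_num)]
      ring
  have x0 : 0 < |x - p| := abs_pos.2 (sub_ne_zero.2 hx')
  obtain ⟨n, hn⟩ := pow_unbounded_of_one_lt (5 / |x - p|) (by norm_num : (1 : ℝ) < 5 / 3)
  have h2 : |φ^[n] x - p| < 5 := h1 _ (key n).1
  rw [div_lt_iff₀ x0] at hn
  linarith [(key n).2]

theorem result : ∃ (F : Set (ℝ → ℝ)) (A : Set ℝ), F.Finite ∧ (∀ φ ∈ F, Continuous φ) ∧
    IsAttractor F A ∧ Attracts F A univ ∧ (∀ F' ⊂ F, ¬ IsAttractor F' A) ∧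
    ∀ m : MetricSpace ℝ, m.toUniformSpace.toTopologicalSpace = (inferInstance : TopologicalSpace ℝ) →
      ∀ φ ∈ F, ∃ x y, x ≠ y ∧ 1 < m.dist (φ x) (φ y) / m.dist x y := by
  have cf : Continuous f := by unfold f; fun_prop
  refine ⟨{f, g}, Icc (-150) 150, toFinite _, ?_, ⟨isCompact_Icc, ⟨0, by norm_num⟩, ?_, univ,
    isOpen_univ, subset_univ _, glob⟩, glob, ?_, ?_⟩
  · rintro φ (rfl | rfl)
    exacts [cf, (cf.comp continuous_neg).neg]
  · refine (H_sub _).antisymm fun t ht => ?_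
    obtain ⟨φ, hφ, y, hy, rfl, -⟩ := pre t ht
    exact mem_biUnion hφ (mem_image_of_mem _ hy)
  · rintro F' hF ⟨-, -, -, U, -, hU, hA⟩
    have h1 : F'.Subsingleton := by
      intro a ha b hb
      by_contra hne
      refine hF.2 ?_
      rcases hF.1 ha with rfl | rfl <;> rcases hF.1 hb with rfl | rfl <;>
        first | exact absurd rfl hne | (rintro φ (rfl | rfl) <;> assumption)
    have h2 : ∀ k, ((H F')^[k] {0}).Subsingleton := by
      intro k
      induction k with
      | zero => exact subsingleton_singleton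
      | succ k ih =>
        rw [Function.iterate_succ_apply']
        intro a ha b hb
        simp only [H, mem_iUnion, mem_image] at ha hb
        obtain ⟨φ, hφ, x, hx, rfl⟩ := ha
        obtain ⟨ψ, hψ, y, hy, rfl⟩ := hb
        rw [h1 hφ hψ, ih hx hy]
    obtain ⟨k, hk⟩ := ((hA {0} isCompact_singleton (singleton_nonempty _)
      (singleton_subset_iff.2 (hU (by norm_num)))).eventually (gt_mem_nhds zero_lt_one)).exists
    rw [hausdorffEDist_comm] at hk
    obtain ⟨a, ha, ha'⟩ := exists_edist_lt_of_hausdorffEDist_lt (x := 150) (by norm_num) hk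
    obtain ⟨b, hb, hb'⟩ := exists_edist_lt_of_hausdorffEDist_lt (x := -150) (by norm_num) hk
    rw [edist_dist, ENNReal.ofReal_lt_one, Real.dist_eq, abs_lt] at ha' hb'
    rw [h2 k ha hb] at ha'
    linarith [ha'.2, hb'.1]
  · intro m hm φ hφ
    have hd : ∀ s : Set ℝ, IsOpen s ↔ ∀ x ∈ s, ∃ ε > 0, ∀ y, m.dist x y < ε → y ∈ s := by
      intro s
      have := @Metric.isOpen_iff ℝ m.toPseudoMetricSpace s
      rw [hm] at this
      rw [this]
      refine forall₂_congr fun x _ => exists_congr fun ε => and_congr_right fun _ => ?_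
      exact forall_congr' fun y => by rw [@mem_ball' ℝ m.toPseudoMetricSpace]
    have hb : ∀ p : ℝ, ∀ ε > 0, ∀ᶠ y in 𝓝 p, m.dist p y < ε := by
      intro p ε hε
      have := @ball_mem_nhds ℝ m.toPseudoMetricSpace p ε hε
      rw [hm] at this
      filter_upwards [this] with y hy
      rwa [@mem_ball' ℝ m.toPseudoMetricSpace] at hy
    have hf : ∀ x, |x - -27| < 5 → f x - -27 = -(5 / 3) * (x - -27) := by
      intro x hx
      obtain ⟨a, b⟩ := abs_lt.1 hx
      rw [f, min_eq_right (by linarith), max_eq_right (by linarith), min_eq_right (by linarith),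
        max_eq_right (by linarith)]
      ring
    have hn : ¬ ∀ x y, m.dist (φ x) (φ y) ≤ m.dist x y := by
      rcases hφ with rfl | rfl
      · exact expand _ (-27) hf _ hd (hb _)
      · refine expand _ 27 (fun x hx => ?_) _ hd (hb _)
        have := hf (-x) (by rwa [show -x - -27 = -(x - 27) by ring, abs_neg])
        rw [g]
        linarith
    push Not at hn
    obtain ⟨x, y, h⟩ := hn
    have hne : x ≠ y := by
      rintro rfl
      rw [m.dist_self, m.dist_self] at h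
      exact lt_irrefl _ h
    exact ⟨x, y, hne, (one_lt_div ((@dist_pos ℝ m x y).2 hne)).2 h⟩

end Pool.Agent.Results.MP_b8546e_an.Line
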